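import Pool.Agent.Helper51.REC.Goals2
import Pool.Agent.Helper40.RD.TRF
import Pool.Agent.Helper42.RD.VAL

/-!
# Project REC (MP_fc6b1e_nt), packet G_EXT: the Gauss element in an extension
-/

set_option autoImplicit false

namespace Pool.Agent.Helper28.REC

open NumberField Polynomial Module IsDedekindDomain
open Pool.Agent.Helper51.RP Pool.Agent.Helper51.REC Pool.Agent.Helper42.PP
open Pool.Agent.Helper40.RS (bel lies)
open Pool.Agent.Helper40.RD (valW)

section

variable {F E : Type} [Field F] [NumberField F] [Field E] [NumberField E] [Algebra F E]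

theorem ram_ne (w : HeightOneSpectrum (𝓞 E)) : (bel F w).asIdeal.ramificationIdx' w.asIdeal ≠ 0 := by
  intro h0
  obtain ⟨a, ha, ha0⟩ : ∃ a ∈ (bel F w).asIdeal, a ≠ 0 :=
    Submodule.exists_mem_ne_zero_of_ne_bot (bel F w).ne_bot
  have h1 : w.valuation E (algebraMap F E (a : F)) = 1 := by rw [valW, h0, pow_zero]
  have h2 : algebraMap (𝓞 F) (𝓞 E) a ∈ w.asIdeal := by
    have h3 : a ∈ w.asIdeal.comap (algebraMap (𝓞 F) (𝓞 E)) := ha
    exact h3
  have h4 : w.valuation E (algebraMap (𝓞 E) E (algebraMap (𝓞 F) (𝓞 E) a)) < 1 :=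
    (HeightOneSpectrum.valuation_lt_one_iff_mem (K := E) w _).2 h2
  have h5 : algebraMap (𝓞 E) E (algebraMap (𝓞 F) (𝓞 E) a) = algebraMap F E (a : F) := rfl
  rw [h5, h1] at h4
  exact lt_irrefl _ h4

theorem val_one_iff (w : HeightOneSpectrum (𝓞 E)) (x : F) :
    w.valuation E (algebraMap F E x) = 1 ↔ (bel F w).valuation F x = 1 := by
  rw [valW]
  constructor
  · intro h
    exact (pow_eq_one_iff.1 h).resolve_right (ram_ne w)
  · intro h
    rw [h, one_pow]

end

theorem g_ext (h1 : K_EXT) : G_EXT := by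
  intro p hpF F E _ _ _ _ _ ε hε ℓ hℓ χ c hc
  have hnat : ∀ (m : ℕ) (w : HeightOneSpectrum (𝓞 E)), w.valuation E (m : E) = 1 →
      (bel F w).valuation F (m : F) = 1 := by
    intro m w h
    rw [← val_one_iff, map_natCast]
    exact h
  refine ⟨fun w hw => ?_, fun w hwp hwl b hb => ?_⟩
  · show w.valuation E (algebraMap F E (c : F)) = 1
    rw [val_one_iff]
    exact hc.unit _ (hnat ℓ w hw)
  · set W := bel F w with hW
    set f := w.asIdeal.inertiaDeg (𝓞 F) with hf
    have h2 : Ideal.absNorm W.asIdeal ^ f = Ideal.absNorm w.asIdeal :=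
      Ideal.absNorm_pow_inertiaDeg W.asIdeal w.asIdeal
    have hf0 : f ≠ 0 := by
      intro h0
      rw [h0, pow_zero] at h2
      exact w.isPrime.ne_top (Ideal.absNorm_eq_one_iff.1 h2.symm)
    have h3 : W.valuation F (c : F) = 1 := hc.unit _ (hnat ℓ w hwl)
    have h4 : (p : ℤ) ∣ ordv W (c : F) := by
      rw [(Pool.Agent.Helper42.RD.ordv_eq_zero_iff W c.ne_zero).2 h3]
      exact dvd_zero _
    have h5 := h1 p F E ε hε W w rfl (hnat p w hwp) f h2.symm c h4
    have h6 : IsUnit ((Ideal.absNorm W.asIdeal : ℕ) : ZMod ℓ) := by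
      rw [← isUnit_pow_iff hf0, ← Nat.cast_pow, h2, ← hb]
      exact b.isUnit
    obtain ⟨b₀, hb₀⟩ := h6
    have h7 := hc.val W (hnat p w hwp) (hnat ℓ w hwl) b₀ hb₀
    have h8 : b = b₀ ^ f := by
      apply Units.ext
      rw [Units.val_pow_eq_pow_val, hb₀, hb, ← h2, Nat.cast_pow]
    rw [h5, h7, h8, map_pow, toAdd_pow, nsmul_eq_mul]

end Pool.Agent.Helper28.REC
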