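import Pool.Agent.Helper51.REC.Goals1
import Pool.Agent.Helper2.RL.EF1
import Pool.Agent.Helper42.RD.VAL

/-!
# Project REC (MP_fc6b1e_nt), packet H_RAM: ramification outside `p`
-/

set_option autoImplicit false

namespace Pool.Agent.Helper28.REC

open NumberField Polynomial Module IsDedekindDomain
open Pool.Agent.Helper51.RP Pool.Agent.Helper51.REC Pool.Agent.Helper42.PP
open Pool.Agent.Helper40.RS (bel gw efg bel_smul lies val_smul)
open Pool.Agent.Helper40.RD (valW ordW bel_of_above)
open Pool.Agent.Helper2.RL (residue_surj)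
open scoped Pointwise

section

variable {F E : Type} [Field F] [NumberField F] [Field E] [NumberField E] [Algebra F E]

/-- There is only one prime above, so all the primes above are equal. -/
theorem uniq [IsGalois F E] (w w' : HeightOneSpectrum (𝓞 E)) (h : bel F w' = bel F w)
    (h1 : ((bel F w).asIdeal.primesOver (𝓞 E)).ncard = 1) : w' = w := by
  obtain ⟨P, hP⟩ := Set.ncard_eq_one.1 h1
  have m1 : w.asIdeal ∈ (bel F w).asIdeal.primesOver (𝓞 E) := ⟨w.isPrime, lies (K := F) w⟩
  have m2 : w'.asIdeal ∈ (bel F w).asIdeal.primesOver (𝓞 E) := by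
    rw [← h]
    exact ⟨w'.isPrime, lies (K := F) w'⟩
  rw [hP] at m1 m2
  apply HeightOneSpectrum.ext
  rw [Set.mem_singleton_iff.1 m1, Set.mem_singleton_iff.1 m2]

/-- If there is only one prime above, the automorphisms preserve the valuation. -/
theorem val_fix [IsGalois F E] (w : HeightOneSpectrum (𝓞 E))
    (h1 : ((bel F w).asIdeal.primesOver (𝓞 E)).ncard = 1) (g : E ≃ₐ[F] E) (y : E) :
    w.valuation E (g y) = w.valuation E y := by
  have h2 : gw g w = w := uniq w (gw g w) (bel_smul g w (gw g w) rfl) h1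
  have h3 : g • w.asIdeal = w.asIdeal := congrArg HeightOneSpectrum.asIdeal h2
  exact val_smul g w w h3 y

/-- A unit at `w` is congruent to an element of `F` if `f = 1`. -/
theorem approx [IsGalois F E] (w : HeightOneSpectrum (𝓞 E)) (hf : w.asIdeal.inertiaDeg (𝓞 F) = 1) (u : E)
    (hu : w.valuation E u = 1) : ∃ x : F, w.valuation E (u - algebraMap F E x) < 1 := by
  obtain ⟨y, hy⟩ := HeightOneSpectrum.exists_valuation_sub_lt_of_integer w hu.le 1
  rw [Units.val_one] at hy
  obtain ⟨x, hx⟩ := residue_surj (K := F) w hf y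
  refine ⟨(x : F), ?_⟩
  have h1 : w.valuation E (algebraMap (𝓞 E) E (y - algebraMap (𝓞 F) (𝓞 E) x)) < 1 :=
    (HeightOneSpectrum.valuation_lt_one_iff_mem (K := E) w _).2 hx
  have h2 : algebraMap (𝓞 E) E (y - algebraMap (𝓞 F) (𝓞 E) x) =
      algebraMap (𝓞 E) E y - algebraMap F E (x : F) := by
    rw [map_sub]
    congr 1
  rw [h2] at h1
  have h3 : u - algebraMap F E (x : F) =
      (algebraMap (𝓞 E) E y - algebraMap F E (x : F)) - (algebraMap (𝓞 E) E y - u) := by ring
  rw [h3]
  exact Valuation.map_sub_lt _ h1 hy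

/-- The factors. -/
theorem factors {p : ℕ} (hp : p.Prime) [IsGalois F E] (hdeg : finrank F E = p)
    (w : HeightOneSpectrum (𝓞 E)) (he : (bel F w).asIdeal.ramificationIdx' w.asIdeal ≠ 1) :
    (bel F w).asIdeal.ramificationIdx' w.asIdeal = p ∧ w.asIdeal.inertiaDeg (𝓞 F) = 1 ∧
      ((bel F w).asIdeal.primesOver (𝓞 E)).ncard = 1 := by
  have h1 := efg (K := F) w
  rw [hdeg] at h1
  have he' : (bel F w).asIdeal.ramificationIdx' w.asIdeal = w.asIdeal.ramificationIdx (𝓞 F) :=
    Ideal.ramificationIdx'_eq_ramificationIdx _ _ (bel F w).ne_bot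
  rw [he'] at he ⊢
  set e := w.asIdeal.ramificationIdx (𝓞 F)
  set f := w.asIdeal.inertiaDeg (𝓞 F)
  set g := ((bel F w).asIdeal.primesOver (𝓞 E)).ncard
  have h2 : e ∣ p := ⟨g * f, by rw [← h1]; ring⟩
  have h3 : e = p := ((Nat.dvd_prime hp).1 h2).resolve_left he
  rw [h3] at h1
  have h4 : p * (g * f) = p * 1 := by rw [mul_one]; nth_rewrite 2 [← h1]; ring
  have h5 : g * f = 1 := Nat.eq_of_mul_eq_mul_left hp.pos h4
  exact ⟨h3, Nat.eq_one_of_mul_eq_one_left h5, Nat.eq_one_of_mul_eq_one_right h5⟩

/-- `1 - ε` is a unit outside `p`. -/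
theorem eps_unit {p : ℕ} (hp : p.Prime) {ε : F} (hε : IsPrimitiveRoot ε p)
    (W : HeightOneSpectrum (𝓞 F)) (hW : W.valuation F (p : F) = 1) :
    ¬ W.valuation F (ε - 1) < 1 := by
  intro h
  have h1 : ∑ i ∈ Finset.range p, ε ^ i = 0 := hε.geom_sum_eq_zero hp.one_lt
  have h2 : (p : F) = -∑ i ∈ Finset.range p, (ε ^ i - 1) := by
    rw [Finset.sum_sub_distrib, h1, Finset.sum_const, Finset.card_range, nsmul_eq_mul, mul_one,
      zero_sub, neg_neg]
  have h3 : W.valuation F (p : F) < 1 := by
    rw [h2, Valuation.map_neg]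
    exact Valuation.map_sum_lt _ one_ne_zero fun i _ => Pool.Agent.Helper42.RD.val_pow_sub W h i
  rw [hW] at h3
  exact lt_irrefl _ h3

end

theorem h_ram : H_RAM := by
  intro p hpF F E _ _ _ _ _ ε β b σ hε hK W hWp
  have hp := hpF.out
  have hgal : IsGalois F E := hK.gal
  have hp0 : p ≠ 0 := hp.ne_zero
  have hβ0 : (β : F) ≠ 0 := β.ne_zero
  have hb0 : b ≠ 0 := by
    rintro rfl
    have h := hK.root
    rw [zero_pow hp0] at h
    exact hβ0 ((algebraMap F E).injective (by rw [map_zero]; exact h.symm))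
  refine ⟨fun hdvd w hw x => ?_, fun hdvd => ?_⟩
  · obtain rfl := bel_of_above hw
    rw [ordW]
    suffices h : (bel F w).asIdeal.ramificationIdx' w.asIdeal = 1 by
      rw [h, Nat.cast_one, one_mul]
    by_contra he
    obtain ⟨_, hf, hg⟩ := factors hp hK.deg w he
    -- normalise `b`
    obtain ⟨n, hn⟩ := hdvd
    obtain ⟨c, hc⟩ := HeightOneSpectrum.valuation_surjective (K := F) (bel F w)
      (WithZero.exp n)
    have hc0 : c ≠ 0 := by
      intro h0
      rw [h0, map_zero] at hc
      exact WithZero.exp_ne_zero hc.symm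
    have hoc : ordv (bel F w) c = -n := by
      unfold ordv
      rw [hc, WithZero.log_exp]
    have h1 : (bel F w).valuation F (c ^ p * β) = 1 := by
      rw [← Pool.Agent.Helper42.RD.ordv_eq_zero_iff (bel F w)
        (mul_ne_zero (pow_ne_zero _ hc0) hβ0),
        Pool.Agent.Helper42.RD.ordv_mul _ (pow_ne_zero _ hc0) hβ0,
        Pool.Agent.Helper42.RD.ordv_pow, hoc, hn]
      ring
    set b' : E := algebraMap F E c * b with hb'
    have h2 : w.valuation E b' = 1 := by
      have h3 : b' ^ p = algebraMap F E (c ^ p * β) := by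
        rw [hb', mul_pow, hK.root, map_mul, map_pow]
      have h4 : w.valuation E (b' ^ p) = 1 := by rw [h3, valW, h1, one_pow]
      rw [map_pow] at h4
      exact (pow_eq_one_iff.1 h4).resolve_right hp0
    obtain ⟨x, hx⟩ := approx (F := F) w hf b' h2
    have h5 : σ b' = algebraMap F E ε * b' := by
      rw [hb', map_mul, AlgEquiv.commutes, hK.act]
      ring
    have h6 : w.valuation E (σ b' - algebraMap F E x) < 1 := by
      have h7 : σ b' - algebraMap F E x = σ (b' - algebraMap F E x) := by
        rw [map_sub, AlgEquiv.commutes]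
      rw [h7, val_fix w hg]
      exact hx
    have h8 : w.valuation E (algebraMap F E (ε - 1)) < 1 := by
      have h9 : algebraMap F E (ε - 1) * b' =
          (σ b' - algebraMap F E x) - (b' - algebraMap F E x) := by
        rw [h5, map_sub, map_one]
        ring
      have h10 : w.valuation E (algebraMap F E (ε - 1) * b') < 1 := by
        rw [h9]
        exact Valuation.map_sub_lt _ h6 hx
      rwa [map_mul, h2, mul_one] at h10
    rw [valW] at h8
    refine eps_unit hp hε (bel F w) hWp ?_
    by_contra h11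
    exact absurd h8 (not_lt.2 (one_le_pow₀ (not_lt.1 h11)))
  · have key : ∀ w : HeightOneSpectrum (𝓞 E), Above w W →
        (bel F w).asIdeal.ramificationIdx' w.asIdeal = p ∧ w.asIdeal.inertiaDeg (𝓞 F) = 1 ∧
          ((bel F w).asIdeal.primesOver (𝓞 E)).ncard = 1 := by
      intro w hw
      refine factors hp hK.deg w fun he => hdvd ?_
      have h1 := ordW (M := F) w (β : F)
      rw [he, Nat.cast_one, one_mul, bel_of_above hw, ← hK.root,
        Pool.Agent.Helper42.RD.ordv_pow] at h1
      exact ⟨_, h1.symm⟩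
    refine ⟨fun w w' hw hw' => ?_, fun w hw => ⟨fun x => ?_, fun u n hu hn => ?_⟩⟩
    · exact (uniq w w' (by rw [bel_of_above hw, bel_of_above hw']) (key w hw).2.2).symm
    · rw [ordW, (key w hw).1, bel_of_above hw]
    · obtain ⟨he, hf, hg⟩ := key w hw
      obtain ⟨x, hx⟩ := approx (F := F) w hf (u : E) hu
      have h1 : w.valuation E (algebraMap F E x) = 1 := by
        have := Valuation.map_eq_of_sub_lt (w.valuation E) (x := (u : E))
          (y := algebraMap F E x) (by rw [hu, Valuation.map_sub_swap]; exact hx)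
        rw [this, hu]
      have h2 : ∀ i, w.valuation E ((σ ^ i) (u : E) - algebraMap F E x) < 1 := by
        intro i
        have h3 : (σ ^ i) (u : E) - algebraMap F E x = (σ ^ i) ((u : E) - algebraMap F E x) := by
          rw [map_sub, AlgEquiv.commutes]
        rw [h3, val_fix w hg]
        exact hx
      have hx0 : algebraMap F E x ≠ 0 := by
        intro h0
        rw [h0, map_zero] at h1
        exact zero_ne_one h1
      have h4 : ∀ k : ℕ, w.valuation E ((∏ i ∈ Finset.range k, (σ ^ i) (u : E)) *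
          (algebraMap F E x)⁻¹ ^ k - 1) < 1 := by
        intro k
        induction k with
        | zero => simp
        | succ k ih =>
          rw [Finset.prod_range_succ, pow_succ]
          have h5 : w.valuation E ((σ ^ k) (u : E) * (algebraMap F E x)⁻¹ - 1) < 1 := by
            have h6 : (σ ^ k) (u : E) * (algebraMap F E x)⁻¹ - 1 =
                ((σ ^ k) (u : E) - algebraMap F E x) * (algebraMap F E x)⁻¹ := by
              rw [sub_mul, mul_inv_cancel₀ hx0]
            rw [h6, map_mul, map_inv₀, h1, inv_one, mul_one]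
            exact h2 k
          have h7 := Pool.Agent.Helper42.RD.val_mul_sub w ih h5
          refine lt_of_eq_of_lt ?_ h7
          congr 1
          ring
      have h5 := h4 p
      rw [← hn] at h5
      refine ⟨x⁻¹, ?_⟩
      have h6 : algebraMap F E n * (algebraMap F E x)⁻¹ ^ p - 1 =
          algebraMap F E ((n : F) * x⁻¹ ^ p - 1) := by
        rw [map_sub, map_mul, map_pow, map_inv₀, map_one]
      rw [h6, valW, bel_of_above hw] at h5
      by_contra h7
      exact absurd h5 (not_lt.2 (one_le_pow₀ (not_lt.1 h7)))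

end Pool.Agent.Helper28.REC
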